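import Pool.Agent.H25.Had

set_option autoImplicit false

namespace Pool.Agent.Results.MP_ced6ff_co.Doubling

open Pool.Agent.H25.Had

/-- The number of equivalence classes of Hadamard matrices of order n is at most the number in
order 2 n. -/
theorem result : ∀ n : ℕ, 1 ≤ n → h n ≤ h (2 * n) := main

end Pool.Agent.Results.MP_ced6ff_co.Doubling
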